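import Mathlib

/-!
Exponential IP sets of type I and II.
-/

set_option autoImplicit false

namespace Pool.Agent.P8H45.EIP

/-- The sets `FE^I_n` for the increasing enumeration `x` of `X`. -/
def FEI (x : ℕ → ℕ) : ℕ → Set ℕ
  | 0 => {x 0}
  | n + 1 => {z | ∃ y ∈ FEI x n, z = y ^ x (n + 1)} ∪ FEI x n ∪ {x (n + 1)}

/-- The sets `FE^II_n` for the increasing enumeration `x` of `X`. -/
def FEII (x : ℕ → ℕ) : ℕ → Set ℕ
  | 0 => {x 0}
  | n + 1 => {z | ∃ y ∈ FEII x n, z = x (n + 1) ^ y} ∪ FEII x n ∪ {x (n + 1)}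

/-- `C` is an exponential IP set of type I: it contains `FE^I(X)` for some infinite `X`
(`Nat.nth (· ∈ X)` is the increasing enumeration of `X`). -/
def IsExpIPI (C : Set ℕ) : Prop :=
  ∃ X : Set ℕ, X.Infinite ∧ ∀ n, FEI (Nat.nth (· ∈ X)) n ⊆ C

/-- `C` is an exponential IP set of type II. -/
def IsExpIPII (C : Set ℕ) : Prop :=
  ∃ X : Set ℕ, X.Infinite ∧ ∀ n, FEII (Nat.nth (· ∈ X)) n ⊆ C

theorem nth_range {x : ℕ → ℕ} (hx : StrictMono x) : Nat.nth (· ∈ Set.range x) = x := by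
  have hinf : (Set.range x).Infinite := Set.infinite_range_of_injective hx.injective
  have h1 : StrictMono (Nat.nth (· ∈ Set.range x)) := Nat.nth_strictMono hinf
  refine (StrictMono.range_inj h1 hx).1 ?_
  exact Nat.range_nth_of_infinite hinf

theorem isExpIPII_of_seq {C : Set ℕ} {x : ℕ → ℕ} (hx : StrictMono x) (h : ∀ n, FEII x n ⊆ C) :
    IsExpIPII C :=
  ⟨Set.range x, Set.infinite_range_of_injective hx.injective, by rw [nth_range hx]; exact h⟩

end Pool.Agent.P8H45.EIP
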