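import Mathlib

/-!
Piecewise syndetic sets of natural numbers: partition regularity and recurrence along finite sums
(from the Hales-Jewett theorem).
-/

set_option autoImplicit false

namespace Pool.Agent.P8H45.EIP

open Finset

/-- Piecewise syndetic sets of natural numbers. -/
def PS (A : Set ℕ) : Prop := ∃ L : ℕ, ∀ M : ℕ, ∃ t : ℕ, ∀ s < M, ∃ g ≤ L, t + s + g ∈ A

theorem PS.mono {A B : Set ℕ} (h : PS A) (hAB : A ⊆ B) : PS B := by
  obtain ⟨L, hL⟩ := h
  refine ⟨L, fun M => ?_⟩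
  obtain ⟨t, ht⟩ := hL M
  refine ⟨t, fun s hs => ?_⟩
  obtain ⟨g, hg, hgA⟩ := ht s hs
  exact ⟨g, hg, hAB hgA⟩

theorem PS_univ : PS Set.univ := ⟨0, fun _ => ⟨0, fun _ _ => ⟨0, le_rfl, trivial⟩⟩⟩

theorem PS.union {A B : Set ℕ} (h : PS (A ∪ B)) : PS A ∨ PS B := by
  obtain ⟨L, hL⟩ := h
  by_cases hB : PS B
  · exact Or.inr hB
  left
  unfold PS at hB
  push Not at hB
  obtain ⟨N, hN⟩ := hB L
  refine ⟨N + L, fun M => ?_⟩
  obtain ⟨t, ht⟩ := hL (M + N)
  refine ⟨t, fun s hs => ?_⟩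
  obtain ⟨s', hs', h'⟩ := hN (t + s)
  obtain ⟨g, hg, hgA⟩ := ht (s + s') (by omega)
  rcases hgA with hgA | hgB
  · refine ⟨s' + g, by omega, ?_⟩
    have : t + s + (s' + g) = t + (s + s') + g := by ring
    rw [this]
    exact hgA
  · exfalso
    apply h' g hg
    have : t + s + s' + g = t + (s + s') + g := by ring
    rw [this]
    exact hgB

theorem PS_empty : ¬ PS ∅ := by
  rintro ⟨L, hL⟩
  obtain ⟨t, ht⟩ := hL 1
  obtain ⟨g, _, hg⟩ := ht 0 one_pos
  exact hg

theorem PS.biUnion {ι : Type*} (s : Finset ι) (A : ι → Set ℕ) (h : PS (⋃ i ∈ s, A i)) :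
    ∃ i ∈ s, PS (A i) := by
  classical
  induction s using Finset.induction_on with
  | empty => simp only [notMem_empty, Set.iUnion_of_empty, Set.iUnion_empty] at h
             exact absurd h PS_empty
  | insert a s ha ih =>
    rw [Finset.set_biUnion_insert] at h
    rcases h.union with h | h
    · exact ⟨a, Finset.mem_insert_self _ _, h⟩
    · obtain ⟨i, hi, h'⟩ := ih h
      exact ⟨i, Finset.mem_insert_of_mem hi, h'⟩

theorem PS.unbounded {A : Set ℕ} (h : PS A) (m : ℕ) : ∃ v ∈ A, m ≤ v := by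
  obtain ⟨L, hL⟩ := h
  obtain ⟨t, ht⟩ := hL (m + 1)
  obtain ⟨g, _, hg⟩ := ht m (by omega)
  exact ⟨_, hg, by omega⟩

/-- Recurrence of piecewise syndetic sets along finite sums. -/
theorem PS.recur {R : Set ℕ} (hR : PS R) (F : Finset ℕ) (a : Stream' ℕ) :
    ∃ o ∈ Hindman.FS a, PS {v | v ∈ R ∧ ∀ f ∈ F, v + o * f ∈ R} := by
  classical
  obtain ⟨L, hL⟩ := hR
  obtain ⟨ι, hι, hHJ⟩ := Combinatorics.Line.exists_mono_in_high_dimension
    (↥(insert 0 F : Finset ℕ)) (Fin (L + 1))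
  let e : ι ≃ Fin (Fintype.card ι) := Fintype.equivFin ι
  let b : ι → ℕ := fun i => a.get (e i)
  set W : ℕ := ∑ i, (∑ f ∈ F, f) * b i with hW
  have hval : ∀ f : ↥(insert 0 F : Finset ℕ), (f : ℕ) ≤ ∑ f ∈ F, f := by
    rintro ⟨f, hf⟩
    rw [Finset.mem_insert] at hf
    rcases hf with rfl | hf
    · exact Nat.zero_le _
    · exact Finset.single_le_sum (f := fun f => f) (fun _ _ => Nat.zero_le _) hf
  have hsum : ∀ w : ι → ↥(insert 0 F : Finset ℕ), ∑ i, (w i : ℕ) * b i ≤ W := by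
    intro w
    exact Finset.sum_le_sum fun i _ => Nat.mul_le_mul_right _ (hval _)
  -- the union over nonempty subsets
  have key : PS (⋃ I ∈ (Finset.univ.powerset.filter (fun I : Finset ι => I.Nonempty)),
      {v | v ∈ R ∧ ∀ f ∈ F, v + (∑ i ∈ I, b i) * f ∈ R}) := by
    refine ⟨W + L, fun M => ?_⟩
    obtain ⟨t₀, ht₀⟩ := hL (M + W + 1)
    refine ⟨t₀, fun s hs => ?_⟩
    have hg : ∀ w : ι → ↥(insert 0 F : Finset ℕ), ∃ g : Fin (L + 1),
        t₀ + (s + ∑ i, (w i : ℕ) * b i) + (g : ℕ) ∈ R := by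
      intro w
      obtain ⟨g, hg, hgR⟩ := ht₀ (s + ∑ i, (w i : ℕ) * b i) (by have := hsum w; omega)
      exact ⟨⟨g, by omega⟩, hgR⟩
    choose C hC using hg
    obtain ⟨l, g, hl⟩ := hHJ C
    set I : Finset ι := Finset.univ.filter (fun i => l.idxFun i = none) with hI
    have hIne : I.Nonempty := by
      obtain ⟨i, hi⟩ := l.proper
      exact ⟨i, by simp [hI, hi]⟩
    -- the sum along the line
    have hline : ∀ f : ↥(insert 0 F : Finset ℕ), ∑ i, (l f i : ℕ) * b i =
        (∑ i ∈ Finset.univ.filter (fun i => ¬ l.idxFun i = none),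
          (l ⟨0, Finset.mem_insert_self _ _⟩ i : ℕ) * b i) + (∑ i ∈ I, b i) * f := by
      intro f
      rw [← Finset.sum_filter_add_sum_filter_not Finset.univ (fun i => l.idxFun i = none), add_comm]
      congr 1
      · refine Finset.sum_congr rfl fun i hi => ?_
        rw [Finset.mem_filter] at hi
        obtain ⟨x, hx⟩ := Option.ne_none_iff_exists'.1 hi.2
        simp [hx]
      · rw [Finset.sum_mul]
        refine Finset.sum_congr rfl fun i hi => ?_
        rw [Finset.mem_filter] at hi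
        simp [hi.2, mul_comm]
    set B := ∑ i ∈ Finset.univ.filter (fun i => ¬ l.idxFun i = none),
          (l ⟨0, Finset.mem_insert_self _ _⟩ i : ℕ) * b i with hB
    have h0 := hline ⟨0, Finset.mem_insert_self _ _⟩
    have hBW : B ≤ W := by
      have := hsum (l ⟨0, Finset.mem_insert_self _ _⟩)
      rw [h0] at this
      simpa using this
    refine ⟨B + g, by have := g.2; omega, ?_⟩
    simp only [Set.mem_iUnion]
    refine ⟨I, ?_, ?_⟩
    · simp [hIne]
    · have hmem : ∀ f : ↥(insert 0 F : Finset ℕ), t₀ + s + (B + (g : ℕ)) + (∑ i ∈ I, b i) * f ∈ R := by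
        intro f
        have h1 := hC (l f)
        rw [hl f, hline f] at h1
        have h2 : t₀ + s + (B + (g : ℕ)) + (∑ i ∈ I, b i) * f =
            t₀ + (s + (B + (∑ i ∈ I, b i) * f)) + (g : ℕ) := by ring
        rw [h2]
        exact h1
      refine ⟨?_, fun f hf => ?_⟩
      · simpa using hmem ⟨0, Finset.mem_insert_self _ _⟩
      · exact hmem ⟨f, Finset.mem_insert_of_mem hf⟩
  obtain ⟨I, hI, hPS⟩ := PS.biUnion _ _ key
  simp only [Finset.mem_filter] at hI
  refine ⟨∑ i ∈ I, b i, ?_, hPS⟩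
  have h1 : ∑ i ∈ I, b i = ∑ j ∈ I.image (fun i => (e i : ℕ)), a.get j := by
    rw [Finset.sum_image]
    intro i _ j _ hij
    exact e.injective (Fin.ext hij)
  rw [h1]
  exact Hindman.FS.finsetSum a _ (hI.2.image _)

end Pool.Agent.P8H45.EIP
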