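import Pool.Agent.P8H45.EIP.Defs

/-!
Type I: a colouring with three colours without monochromatic `FE^I(X)`.
-/

set_option autoImplicit false

namespace Pool.Agent.P8H45.EIP

/-- The iterated logarithm. -/
def ls (n : ℕ) : ℕ := if h : n < 2 then 0 else 1 + ls (Nat.log 2 n)
termination_by n
decreasing_by exact Nat.log_lt_self 2 (by omega)

theorem ls_small {n : ℕ} (h : n < 2) : ls n = 0 := by
  rw [ls]
  simp [h]

theorem ls_big {n : ℕ} (h : 2 ≤ n) : ls n = 1 + ls (Nat.log 2 n) := by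
  rw [ls]
  simp [Nat.not_lt.2 h]

theorem ls_mono : ∀ n m : ℕ, m ≤ n → ls m ≤ ls n := by
  intro n
  induction n using Nat.strong_induction_on with
  | _ n ih =>
    intro m hm
    rcases lt_or_ge m 2 with h | h
    · rw [ls_small h]
      exact Nat.zero_le _
    · rw [ls_big h, ls_big (h.trans hm)]
      have := ih (Nat.log 2 n) (Nat.log_lt_self 2 (by omega)) (Nat.log 2 m)
        (Nat.log_mono_right hm)
      omega

theorem ls_two_pow {n : ℕ} (h : 1 ≤ n) : ls (2 ^ n) = 1 + ls n := by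
  have h2 : 2 ≤ 2 ^ n := by
    calc 2 = 2 ^ 1 := by norm_num
      _ ≤ 2 ^ n := Nat.pow_le_pow_right (by norm_num) h
  rw [ls_big h2, Nat.log_pow (by norm_num)]

theorem ls_pow {a x : ℕ} (ha : 2 ≤ a) (hx : 1 ≤ x) (h : a * x ≤ 2 ^ x) :
    ls (a ^ x) = 1 + ls x ∨ ls (a ^ x) = 2 + ls x := by
  have h1 : 2 ^ x ≤ a ^ x := Nat.pow_le_pow_left ha x
  have h2 : 2 ≤ a ^ x := by
    calc 2 = 2 ^ 1 := by norm_num
      _ ≤ 2 ^ x := Nat.pow_le_pow_right (by norm_num) hx
      _ ≤ a ^ x := h1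
  rw [ls_big h2]
  have h3 : x ≤ Nat.log 2 (a ^ x) := by
    exact Nat.le_log_of_pow_le (by norm_num) h1
  have h4 : Nat.log 2 (a ^ x) ≤ a * x := by
    have : a ^ x ≤ 2 ^ (a * x) := by
      rw [pow_mul]
      exact Nat.pow_le_pow_left Nat.lt_two_pow_self.le x
    calc Nat.log 2 (a ^ x) ≤ Nat.log 2 (2 ^ (a * x)) := Nat.log_mono_right this
      _ = a * x := Nat.log_pow (by norm_num) _
  have h5 := ls_mono _ _ h3
  have h6 := ls_mono _ _ (h4.trans h)
  rw [ls_two_pow hx] at h6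
  omega

theorem FEI_mem_self (x : ℕ → ℕ) (n : ℕ) : x n ∈ FEI x n := by
  cases n with
  | zero => simp [FEI]
  | succ n => simp [FEI]

theorem FEI_mono (x : ℕ → ℕ) {m n : ℕ} (h : m ≤ n) : FEI x m ⊆ FEI x n := by
  induction n, h using Nat.le_induction with
  | base => exact subset_rfl
  | succ n _ ih =>
    refine ih.trans ?_
    intro z hz
    simp [FEI, hz]

theorem sq_le_two_pow (k : ℕ) (hk : 4 ≤ k) : k ^ 2 ≤ 2 ^ k := by
  induction k, hk using Nat.le_induction with
  | base => norm_num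
  | succ k hk ih =>
    have h1 : (k + 1) ^ 2 = k ^ 2 + 2 * k + 1 := by ring
    have h2 : 2 ^ (k + 1) = 2 ^ k + 2 ^ k := by ring
    rw [h1, h2]
    nlinarith

theorem eventually_le_two_pow (a : ℕ) : ∃ N, ∀ x ≥ N, a * x ≤ 2 ^ x := by
  refine ⟨a + 4, fun x hx => ?_⟩
  have h3 := sq_le_two_pow x (by omega)
  have h2 : a ≤ x := by omega
  nlinarith

/-- The colouring by the residue of the iterated logarithm modulo `3`. -/
def c3 (n : ℕ) : Fin 3 := ⟨ls n % 3, Nat.mod_lt _ (by norm_num)⟩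

theorem c3_surjective : Function.Surjective c3 := by
  have h0 : ls 0 = 0 := ls_small (by norm_num)
  have h1 : ls 1 = 0 := ls_small (by norm_num)
  have h2 : ls 2 = 1 := by
    have := ls_two_pow (n := 1) le_rfl
    rw [h1] at this
    simpa using this
  have h4 : ls 4 = 2 := by
    have := ls_two_pow (n := 2) (by norm_num)
    rw [h2] at this
    simpa using this
  intro i
  fin_cases i
  · exact ⟨0, by simp [c3, h0]⟩
  · exact ⟨2, by simp [c3, h2]⟩
  · exact ⟨4, by simp [c3, h4]⟩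

theorem typeI_three (i : Fin 3) : ¬ IsExpIPI (c3 ⁻¹' {i}) := by
  rintro ⟨X, hX, hC⟩
  set x := Nat.nth (· ∈ X) with hx
  have hmono : StrictMono x := Nat.nth_strictMono hX
  have h2 : 2 ≤ x 2 := hmono.id_le 2
  obtain ⟨N, hN⟩ := eventually_le_two_pow (x 2)
  set j := N + 2 with hj
  have hjN : N ≤ x (j + 1) := by
    have := hmono.id_le (j + 1)
    simp only [id] at this
    omega
  have hmem : x 2 ^ x (j + 1) ∈ FEI x (j + 1) := by
    have : x 2 ∈ FEI x j := FEI_mono x (by omega) (FEI_mem_self x 2)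
    simp only [FEI, Set.mem_union, Set.mem_ofPred_eq]
    exact Or.inl (Or.inl ⟨x 2, this, rfl⟩)
  have hc1 := hC (j + 1) hmem
  have hc2 := hC (j + 1) (FEI_mem_self x (j + 1))
  simp only [Set.mem_preimage, Set.mem_singleton_iff] at hc1 hc2
  rw [← hc2] at hc1
  have hc3 : ls (x 2 ^ x (j + 1)) % 3 = ls (x (j + 1)) % 3 := congrArg Fin.val hc1
  have h1 : 1 ≤ x (j + 1) := by
    have := hmono.id_le (j + 1)
    simp only [id] at this
    omega
  rcases ls_pow h2 h1 (hN _ hjN) with h | h <;> rw [h] at hc3 <;> omega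

end Pool.Agent.P8H45.EIP
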