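import Pool.Agent.P8H45.EIP.Defs
import Pool.Agent.P8H45.EIP.PS

/-!
Type II: every finite colouring of the natural numbers has a monochromatic `FE^II(X)`.
-/

set_option autoImplicit false

namespace Pool.Agent.P8H45.EIP

open Filter

attribute [local instance] Ultrafilter.add Ultrafilter.addSemigroup

/-- an idempotent ultrafilter containing the positive numbers -/
theorem exists_idem : ∃ u : Ultrafilter ℕ, u + u = u ∧ ∀ᶠ o in u, 0 < o := by
  obtain ⟨u, hu, h⟩ := Hindman.exists_idempotent_ultrafilter_le_FS (Stream'.const 1 : Stream' ℕ)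
  refine ⟨u, hu, h.mono ?_⟩
  have key : ∀ (a : Stream' ℕ) (m : ℕ), m ∈ Hindman.FS a → (∀ i, 0 < a.get i) → 0 < m := by
    intro a m hm
    induction hm with
    | head' a => intro h; exact h 0
    | tail' a m _ ih => intro h; exact ih fun i => h (i + 1)
    | cons' a m _ ih =>
      intro h
      have := h 0
      have h2 : 0 < a.head := this
      omega
  intro m hm
  exact key _ m hm (fun i => by simp [Stream'.get_const])

variable {r : ℕ}

/-- the limit colour -/
theorem exists_phi (u : Ultrafilter ℕ) (κ : ℕ → Fin r) (V : ℕ) :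
    ∃ i, ∀ᶠ o in u, κ (o * 2 ^ V) = i := by
  obtain ⟨i, hi⟩ := Ultrafilter.eq_pure_of_finite (u.map fun o => κ (o * 2 ^ V))
  refine ⟨i, ?_⟩
  have : {i} ∈ u.map fun o => κ (o * 2 ^ V) := by
    rw [hi]
    exact Filter.mem_pure.2 rfl
  rw [Ultrafilter.mem_map] at this
  filter_upwards [this] with o ho using ho

/-- A state of the construction. -/
structure St (φ : ℕ → Fin r) (κ : ℕ → Fin r) (c : Fin r) where
  R : Set ℕ
  E : Finset ℕ
  m : ℕ
  hR : PS R
  hc : ∀ V ∈ R, φ V = c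
  hE : ∀ V ∈ R, ∀ e ∈ E, φ (V + e) = c
  hκ : ∀ e ∈ E, κ e = c

theorem step (u : Ultrafilter ℕ) (hu : u + u = u) (hpos : ∀ᶠ o in u, 0 < o) (φ κ : ℕ → Fin r)
    (hφ : ∀ V, ∀ᶠ o in u, κ (o * 2 ^ V) = φ V) (c : Fin r) (s : St φ κ c) :
    ∃ (s' : St φ κ c), s.m < s'.m ∧
      s'.E = s.E ∪ {s'.m} ∪ s.E.image (fun e => s'.m * 2 ^ e) := by
  classical
  obtain ⟨V, hV, hVm⟩ := s.hR.unbounded (s.m + 1)
  have hW : {o : ℕ | 0 < o ∧ κ (o * 2 ^ V) = c ∧ ∀ e ∈ s.E, κ (o * 2 ^ (V + e)) = c} ∈ u := by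
    have h1 : ∀ᶠ o in u, κ (o * 2 ^ V) = c := by
      have := hφ V
      rwa [s.hc V hV] at this
    have h2 : ∀ᶠ o in u, ∀ e ∈ s.E, κ (o * 2 ^ (V + e)) = c := by
      rw [Filter.eventually_all_finset]
      intro e he
      have := hφ (V + e)
      rwa [s.hE V hV e he] at this
    filter_upwards [hpos, h1, h2] with o h1 h2 h3 using ⟨h1, h2, h3⟩
  obtain ⟨a, ha⟩ := Hindman.exists_FS_of_large u hu _ hW
  obtain ⟨o, ho, hPS⟩ := s.hR.recur (insert (2 ^ V) (s.E.image fun e => 2 ^ (V + e))) a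
  obtain ⟨ho0, ho1, ho2⟩ := ha ho
  refine ⟨⟨_, s.E ∪ {o * 2 ^ V} ∪ s.E.image (fun e => o * 2 ^ V * 2 ^ e), o * 2 ^ V, hPS, ?_, ?_, ?_⟩,
    ?_, rfl⟩
  · intro V' hV'
    exact s.hc V' hV'.1
  · intro V' hV' e he
    simp only [Finset.mem_union, Finset.mem_singleton, Finset.mem_image] at he
    rcases he with (he | he) | ⟨e', he', rfl⟩
    · exact s.hE V' hV'.1 e he
    · rw [he]
      exact s.hc _ (hV'.2 _ (Finset.mem_insert_self _ _))
    · have := hV'.2 (2 ^ (V + e')) (Finset.mem_insert_of_mem (Finset.mem_image_of_mem _ he'))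
      rw [mul_assoc, ← pow_add]
      exact s.hc _ this
  · intro e he
    simp only [Finset.mem_union, Finset.mem_singleton, Finset.mem_image] at he
    rcases he with (he | he) | ⟨e', he', rfl⟩
    · exact s.hκ e he
    · rw [he]; exact ho1
    · rw [mul_assoc, ← pow_add]
      exact ho2 e' he'
  · change s.m < o * 2 ^ V
    have h1 : V < 2 ^ V := Nat.lt_two_pow_self
    have h2 : 2 ^ V ≤ o * 2 ^ V := Nat.le_mul_of_pos_left _ ho0
    omega

theorem typeII_all (C : ℕ → Fin r) : ∃ i, IsExpIPII (C ⁻¹' {i}) := by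
  classical
  obtain ⟨u, hu, hpos⟩ := exists_idem
  set κ : ℕ → Fin r := fun l => C (2 ^ l) with hκdef
  choose φ hφ using exists_phi u κ
  -- a piecewise syndetic colour class
  have hcov : PS (⋃ i ∈ (Finset.univ : Finset (Fin r)), {V | φ V = i}) := by
    refine PS_univ.mono ?_
    intro V _
    simp
  obtain ⟨c, _, hc⟩ := PS.biUnion _ _ hcov
  refine ⟨c, ?_⟩
  let s0 : St φ κ c := ⟨{V | φ V = c}, ∅, 0, hc, fun _ h => h, by simp, by simp⟩
  choose nxt hnxt1 hnxt2 using step u hu hpos φ κ hφ c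
  let S : ℕ → St φ κ c := fun n => Nat.rec s0 (fun _ s => nxt s) n
  have hS : ∀ n, S (n + 1) = nxt (S n) := fun n => rfl
  let l : ℕ → ℕ := fun n => (S (n + 1)).m
  have hl : StrictMono l := by
    apply strictMono_nat_of_lt_succ
    intro n
    exact hnxt1 (S (n + 1))
  have hx : StrictMono (fun n => 2 ^ l n) := fun a b hab =>
    Nat.pow_lt_pow_right (by norm_num) (hl hab)
  refine isExpIPII_of_seq hx ?_
  have key : ∀ n, ∀ z ∈ FEII (fun n => 2 ^ l n) n, ∃ e ∈ (S (n + 1)).E, z = 2 ^ e := by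
    intro n
    induction n with
    | zero =>
      intro z hz
      simp only [FEII, Set.mem_singleton_iff] at hz
      refine ⟨l 0, ?_, hz⟩
      rw [hS 0, hnxt2]
      simp [l, hS]
    | succ n ih =>
      intro z hz
      simp only [FEII, Set.mem_union, Set.mem_ofPred_eq, Set.mem_singleton_iff] at hz
      rw [hS (n + 1), hnxt2]
      rcases hz with (⟨y, hy, rfl⟩ | hz) | rfl
      · obtain ⟨e, he, rfl⟩ := ih y hy
        refine ⟨l (n + 1) * 2 ^ e, ?_, by rw [← pow_mul]⟩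
        simp only [Finset.mem_union, Finset.mem_image]
        exact Or.inr ⟨e, he, rfl⟩
      · obtain ⟨e, he, rfl⟩ := ih z hz
        exact ⟨e, by simp [he], rfl⟩
      · refine ⟨l (n + 1), ?_, rfl⟩
        simp only [Finset.mem_union, Finset.mem_singleton]
        exact Or.inl (Or.inr rfl)
  intro n z hz
  obtain ⟨e, he, rfl⟩ := key n z hz
  exact (S (n + 1)).hκ e he

end Pool.Agent.P8H45.EIP
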